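import Mathlib

/-! The number of the zeros modulo `p` of the members of a pencil of hypersurfaces of degree equal to the number of variables. -/

set_option autoImplicit false

namespace Pool.Agent.Q235.CY

open Finset MvPolynomial

section

variable {n p : ℕ} [Fact p.Prime]

/-- the sum of the powers of the values -/
noncomputable def hsum (F : MvPolynomial (Fin (n + 1)) (ZMod p)) : ZMod p := ∑ x : Fin (n + 1) → ZMod p, eval x F ^ (p - 1)

lemma card_zeros (F : MvPolynomial (Fin (n + 1)) (ZMod p)) :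
    ((Nat.card {x : Fin (n + 1) → ZMod p // eval x F = 0} : ℕ) : ZMod p) = -hsum F := by
  classical
  have hp : p.Prime := Fact.out
  rw [Nat.card_eq_fintype_card, Fintype.card_subtype, card_filter]
  unfold hsum
  push_cast
  have h1 : ∀ x : Fin (n + 1) → ZMod p, (if eval x F = 0 then (1 : ZMod p) else 0) = 1 - eval x F ^ (p - 1) := by
    intro x
    by_cases h : eval x F = 0
    · rw [if_pos h, h, zero_pow (by have := hp.two_le; omega), sub_zero]
    · rw [if_neg h, ZMod.pow_card_sub_one_eq_one h, sub_self]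
  rw [sum_congr rfl fun x _ => h1 x, sum_sub_distrib, sum_const, card_univ, Fintype.card_fun, ZMod.card, Fintype.card_fin,
    nsmul_eq_mul]
  push_cast
  rw [CharP.cast_eq_zero, zero_pow (Nat.succ_ne_zero n), zero_mul, zero_sub]

lemma coeff_zero (g : MvPolynomial (Fin (n + 1)) (ZMod p)) (hg : g.totalDegree ≤ n + 1) {k : ℕ} (hk : p - 1 < (n + 1) * k)
    (hk2 : k ≤ p - 1) : ∑ x : Fin (n + 1) → ZMod p, x 0 ^ ((n + 1) * k) * eval x g ^ (p - 1 - k) = 0 := by
  classical
  have hp : p.Prime := Fact.out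
  have hp1 : 1 ≤ p - 1 := by have := hp.two_le; omega
  obtain ⟨e, he⟩ : ∃ e, e = (n + 1) * k - (p - 1) := ⟨_, rfl⟩
  have he1 : 1 ≤ e := by omega
  have h1 : ∀ x : Fin (n + 1) → ZMod p, x 0 ^ ((n + 1) * k) * eval x g ^ (p - 1 - k) =
      eval x ((X 0) ^ e * g ^ (p - 1 - k) : MvPolynomial (Fin (n + 1)) (ZMod p)) := by
    intro x
    rw [eval_mul, eval_pow, eval_pow, eval_X]
    congr 1
    have e1 : (n + 1) * k = e + (p - 1) := by omega
    rw [e1, pow_add]
    by_cases h : x 0 = 0
    · rw [h, zero_pow (by omega), zero_mul]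
    · rw [ZMod.pow_card_sub_one_eq_one h, mul_one]
  rw [sum_congr rfl fun x _ => h1 x]
  refine MvPolynomial.sum_eval_eq_zero _ ?_
  rw [ZMod.card, Fintype.card_fin]
  have h2 : ((X 0) ^ e * g ^ (p - 1 - k) : MvPolynomial (Fin (n + 1)) (ZMod p)).totalDegree ≤ e + (p - 1 - k) * (n + 1) := by
    refine (totalDegree_mul _ _).trans (add_le_add ?_ ?_)
    · exact (totalDegree_X_pow (R := ZMod p) (0 : Fin (n + 1)) e).le
    · exact (totalDegree_pow _ _).trans (Nat.mul_le_mul_left _ hg)
  refine lt_of_le_of_lt h2 ?_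
  have h3 : (p - 1 - k) * (n + 1) + (n + 1) * k = (p - 1) * (n + 1) := by
    obtain ⟨l, hl⟩ : ∃ l, p - 1 = k + l := ⟨p - 1 - k, by omega⟩
    rw [hl, Nat.add_sub_cancel_left]
    ring
  omega

/-- the sum as a polynomial in the coefficient of `x₀ ^ (n + 1)` -/
noncomputable def hasse (g : MvPolynomial (Fin (n + 1)) (ZMod p)) : Polynomial (ZMod p) :=
  ∑ k ∈ range (p - 1 + 1), Polynomial.C (((p - 1).choose k : ZMod p) *
    ∑ x : Fin (n + 1) → ZMod p, x 0 ^ ((n + 1) * k) * eval x g ^ (p - 1 - k)) * Polynomial.X ^ k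

lemma hasse_eval (g : MvPolynomial (Fin (n + 1)) (ZMod p)) (t : ZMod p) :
    (hasse g).eval t = hsum (g + C t * X 0 ^ (n + 1)) := by
  unfold hasse hsum
  rw [Polynomial.eval_finsetSum]
  simp only [Polynomial.eval_mul, Polynomial.eval_C, Polynomial.eval_pow, Polynomial.eval_X, eval_add, eval_mul, eval_C,
    eval_pow, eval_X]
  have h1 : ∀ x : Fin (n + 1) → ZMod p, (eval x g + t * x 0 ^ (n + 1)) ^ (p - 1) =
      ∑ k ∈ range (p - 1 + 1), (t * x 0 ^ (n + 1)) ^ k * eval x g ^ (p - 1 - k) * ((p - 1).choose k : ZMod p) := by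
    intro x
    rw [add_comm, add_pow]
  rw [sum_congr rfl fun x _ => h1 x, sum_comm]
  refine sum_congr rfl fun k _ => ?_
  rw [mul_sum, sum_mul]
  refine sum_congr rfl fun x _ => ?_
  rw [mul_pow, ← pow_mul]
  ring

lemma hasse_degree (g : MvPolynomial (Fin (n + 1)) (ZMod p)) (hg : g.totalDegree ≤ n + 1) :
    (hasse g).natDegree ≤ (p - 1) / (n + 1) := by
  unfold hasse
  refine Polynomial.natDegree_sum_le_of_forall_le _ _ fun k hk => ?_
  rw [mem_range] at hk
  by_cases h : p - 1 < (n + 1) * k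
  · rw [coeff_zero g hg h (by omega), mul_zero, Polynomial.C_0, zero_mul, Polynomial.natDegree_zero]
    exact Nat.zero_le _
  · refine (Polynomial.natDegree_C_mul_X_pow_le _ _).trans ?_
    have h2 : k * (n + 1) ≤ p - 1 := by
      rw [mul_comm]
      omega
    exact (Nat.le_div_iff_mul_le (Nat.succ_pos n)).2 h2

open Classical in
/-- few members have a number of zeros divisible by `p` -/
theorem card_members (g : MvPolynomial (Fin (n + 1)) (ZMod p)) (hg : g.totalDegree ≤ n + 1)
    (h : ∃ t : ZMod p, hsum (g + C t * X 0 ^ (n + 1)) ≠ 0) :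
    ((univ : Finset (ZMod p)).filter fun t => hsum (g + C t * X 0 ^ (n + 1)) = 0).card ≤ (p - 1) / (n + 1) := by
  have h0 : hasse g ≠ 0 := by
    intro h0
    obtain ⟨t, ht⟩ := h
    apply ht
    rw [← hasse_eval, h0, Polynomial.eval_zero]
  refine le_trans (card_le_card (t := (hasse g).roots.toFinset) fun t ht => ?_)
    ((Multiset.toFinset_card_le _).trans ((Polynomial.card_roots' _).trans (hasse_degree g hg)))
  rw [Multiset.mem_toFinset, Polynomial.mem_roots h0, Polynomial.IsRoot.def, hasse_eval]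
  exact (mem_filter.1 ht).2

end

/-- the number of the solutions of `F = 0` modulo `p` -/
noncomputable def points {n : ℕ} (p : ℕ) (F : MvPolynomial (Fin (n + 1)) ℤ) : ℕ :=
  Nat.card {x : Fin (n + 1) → ZMod p // eval₂ (Int.castRingHom (ZMod p)) x F = 0}

/-- the member of the pencil -/
noncomputable def member {n : ℕ} (G : MvPolynomial (Fin (n + 1)) ℤ) (m : ℤ) : MvPolynomial (Fin (n + 1)) ℤ :=
  G + C m * X 0 ^ (n + 1)

lemma points_eq {n p : ℕ} [Fact p.Prime] (G : MvPolynomial (Fin (n + 1)) ℤ) (m : ℤ) :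
    ((points p (member G m) : ℕ) : ZMod p) = -hsum (map (Int.castRingHom (ZMod p)) G + C (m : ZMod p) * X 0 ^ (n + 1)) := by
  rw [← card_zeros]
  have h : ∀ x : Fin (n + 1) → ZMod p, eval₂ (Int.castRingHom (ZMod p)) x (member G m) =
      eval x (map (Int.castRingHom (ZMod p)) G + C (m : ZMod p) * X 0 ^ (n + 1)) := by
    intro x
    unfold member
    simp only [eval₂_add, eval₂_mul, eval₂_C, eval₂_pow, eval₂_X, eval_add, eval_mul, eval_C, eval_pow, eval_X, eval_map,
      Int.coe_castRingHom]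
  unfold points
  simp only [h]

lemma dvd_points {n p : ℕ} [Fact p.Prime] (G : MvPolynomial (Fin (n + 1)) ℤ) (m : ℤ) :
    p ∣ points p (member G m) ↔ hsum (map (Int.castRingHom (ZMod p)) G + C (m : ZMod p) * X 0 ^ (n + 1)) = 0 := by
  rw [← ZMod.natCast_eq_zero_iff, points_eq, neg_eq_zero]

end Pool.Agent.Q235.CY
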