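import Pool.Agent.Q235.CY.Alg

/-! The pencils `R(x₁, …, xₙ) - c x₀ ⋯ xₙ + m x₀ ^ (n + 1)`. -/

set_option autoImplicit false

namespace Pool.Agent.Q235.CY

open Finset MvPolynomial

section

variable {n p : ℕ} [Fact p.Prime]

lemma sum_pow_card : ∑ z : ZMod p, z ^ (p - 1) = -1 := by
  classical
  have hp : p.Prime := Fact.out
  have h1 : ∀ z : ZMod p, z ^ (p - 1) = 1 - (if z = 0 then 1 else 0) := by
    intro z
    by_cases h : z = 0
    · rw [if_pos h, h, zero_pow (by have := hp.two_le; omega), sub_self]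
    · rw [if_neg h, ZMod.pow_card_sub_one_eq_one h, sub_zero]
  rw [sum_congr rfl fun z _ => h1 z, sum_sub_distrib, sum_const, card_univ, ZMod.card, nsmul_eq_mul, CharP.cast_eq_zero,
    zero_mul, sum_ite_eq' univ (0 : ZMod p), if_pos (mem_univ _), zero_sub]

lemma inner_sum (u v : ZMod p) : ∑ z : ZMod p, (u + v * z) ^ (p - 1) = -(v ^ (p - 1)) := by
  classical
  have hp : p.Prime := Fact.out
  by_cases hv : v = 0
  · rw [hv, zero_pow (by have := hp.two_le; omega), neg_zero]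
    simp only [zero_mul, add_zero]
    rw [sum_const, card_univ, ZMod.card, nsmul_eq_mul, CharP.cast_eq_zero, zero_mul]
  · rw [ZMod.pow_card_sub_one_eq_one hv, ← sum_pow_card (p := p)]
    exact Equiv.sum_comp ((Equiv.mulLeft₀ v hv).trans (Equiv.addLeft u)) (fun z => z ^ (p - 1))

lemma cons_sum (f : (Fin (n + 1) → ZMod p) → ZMod p) :
    ∑ x, f x = ∑ y : Fin n → ZMod p, ∑ z : ZMod p, f (Fin.cons z y) := by
  rw [sum_comm, ← Fintype.sum_prod_type' (fun (z : ZMod p) (y : Fin n → ZMod p) => f (Fin.cons z y))]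
  exact (Equiv.sum_comp (Fin.consEquiv (fun _ => ZMod p)) f).symm

lemma prod_sum_pow : ∑ y : Fin n → ZMod p, (∏ i, y i) ^ (p - 1) = (-1) ^ n := by
  classical
  have h1 : ∏ _i : Fin n, ∑ z : ZMod p, z ^ (p - 1) = ∑ y : Fin n → ZMod p, ∏ i, (y i) ^ (p - 1) := by
    rw [Finset.prod_univ_sum, Fintype.piFinset_univ]
  rw [sum_pow_card, prod_const, card_univ, Fintype.card_fin] at h1
  rw [h1]
  exact sum_congr rfl fun y _ => (prod_pow _ _ _).symm

end

/-- the form `R(x₁, …, xₙ) - c x₀ ⋯ xₙ` -/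
noncomputable def dwork {n : ℕ} (R : MvPolynomial (Fin n) ℤ) (c : ℤ) : MvPolynomial (Fin (n + 1)) ℤ :=
  rename Fin.succ R - C c * ∏ i, X i

/-- the number of the zeros of `R(x₁, …, xₙ) - c x₀ ⋯ xₙ` is not divisible by `p` -/
theorem dwork_points {n : ℕ} (R : MvPolynomial (Fin n) ℤ) (c : ℤ) {p : ℕ} (hp : p.Prime) (hc : ¬ (p : ℤ) ∣ c) :
    ¬ p ∣ points p (member (dwork R c) 0) := by
  classical
  have : Fact p.Prime := ⟨hp⟩
  have hc' : (c : ZMod p) ≠ 0 := fun h => hc ((ZMod.intCast_zmod_eq_zero_iff_dvd c p).1 h)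
  rw [dvd_points]
  have h1 : hsum (map (Int.castRingHom (ZMod p)) (dwork R c) + C ((0 : ℤ) : ZMod p) * X 0 ^ (n + 1)) =
      ∑ x : Fin (n + 1) → ZMod p, (eval₂ (Int.castRingHom (ZMod p)) (fun i : Fin n => x i.succ) R -
        (c : ZMod p) * ∏ i, x i) ^ (p - 1) := by
    unfold hsum dwork
    refine sum_congr rfl fun x _ => ?_
    congr 1
    simp only [eval_add, eval_mul, eval_C, Int.cast_zero, zero_mul, add_zero, eval_map, eval₂_sub, eval₂_mul, eval₂_C,
      eval₂_rename, eval₂_prod, eval₂_X, Int.coe_castRingHom]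
    rfl
  rw [h1, cons_sum]
  have h2 : ∀ y : Fin n → ZMod p, ∑ z : ZMod p, (eval₂ (Int.castRingHom (ZMod p))
      (fun i : Fin n => (Fin.cons z y : Fin (n + 1) → ZMod p) i.succ) R -
        (c : ZMod p) * ∏ i, (Fin.cons z y : Fin (n + 1) → ZMod p) i) ^ (p - 1) = -(∏ i, y i) ^ (p - 1) := by
    intro y
    have h3 : ∀ z : ZMod p, (eval₂ (Int.castRingHom (ZMod p))
        (fun i : Fin n => (Fin.cons z y : Fin (n + 1) → ZMod p) i.succ) R -
        (c : ZMod p) * ∏ i, (Fin.cons z y : Fin (n + 1) → ZMod p) i) ^ (p - 1) =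
        (eval₂ (Int.castRingHom (ZMod p)) y R + (-((c : ZMod p) * ∏ i, y i)) * z) ^ (p - 1) := by
      intro z
      congr 1
      rw [Fin.prod_univ_succ]
      simp only [Fin.cons_succ, Fin.cons_zero]
      ring
    rw [sum_congr rfl fun z _ => h3 z, inner_sum, neg_pow, mul_pow, ZMod.pow_card_sub_one_eq_one hc', one_mul]
    have h4 : (-1 : ZMod p) ^ (p - 1) = 1 := ZMod.pow_card_sub_one_eq_one (neg_ne_zero.2 one_ne_zero)
    rw [h4, one_mul]
  rw [sum_congr rfl fun y _ => h2 y, sum_neg_distrib, prod_sum_pow, neg_eq_zero]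
  exact pow_ne_zero n (neg_ne_zero.2 one_ne_zero)

end Pool.Agent.Q235.CY

namespace Pool.Agent.Q235.CY

open Finset MvPolynomial

lemma dwork_degree {n : ℕ} (R : MvPolynomial (Fin n) ℤ) (hR : R.totalDegree ≤ n + 1) (c : ℤ) :
    (dwork R c).totalDegree ≤ n + 1 := by
  unfold dwork
  refine (totalDegree_sub _ _).trans (max_le ((totalDegree_rename_le _ _).trans hR) ?_)
  refine (totalDegree_mul _ _).trans ?_
  rw [totalDegree_C, zero_add]
  refine (totalDegree_finsetProd _ _).trans ?_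
  refine (sum_le_sum fun i _ => (totalDegree_X (R := ℤ) i).le).trans ?_
  simp

end Pool.Agent.Q235.CY
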