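import Pool.Agent.Q235.CY.Alg
import Pool.Agent.Q235.FD.Cen
import Pool.Agent.Q235.FD.Hyp

/-! The number of the primes at which almost all members of a pencil are weakly ordinary. -/

set_option autoImplicit false

namespace Pool.Agent.Q235.CY

open Finset MvPolynomial
open Pool.Agent.Q235.FD

/-- A pencil `G + m x₀ ^ (n + 1)` of hypersurfaces, a polynomial in `m`, and for every `x` a set of at most `x ^ B` sets of primes up
to `x`. -/
structure Pencil (n D B : ℕ) where
  /-- the sets of primes -/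
  sets : Sets B
  /-- the polynomial -/
  G : MvPolynomial (Fin (n + 1)) ℤ
  deg : G.totalDegree ≤ n + 1
  /-- the polynomial in the parameter -/
  Δ : Polynomial ℤ
  degΔ : Δ.natDegree ≤ D

/-- some member of the pencil modulo `p` has a number of zeros which is not divisible by `p`, and `Δ` is not zero modulo `p` -/
def Admissible {n D B : ℕ} (θ : Pencil n D B) (p : ℕ) : Prop :=
  (∃ t : ℤ, ¬ p ∣ points p (member θ.G t)) ∧ θ.Δ.map (Int.castRingHom (ZMod p)) ≠ 0

/-- the member has a number of zeros modulo `p` divisible by `p`, or `p` divides `Δ(m)` -/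
def Bad {n D B : ℕ} (θ : Pencil n D B) (p m : ℕ) : Prop :=
  p ∣ points p (member θ.G (m : ℤ)) ∨ (p : ℤ) ∣ θ.Δ.eval (m : ℤ)

open Classical in
/-- the function -/
noncomputable def gb {n D B : ℕ} (θ : Pencil n D B) (p : ℕ) (m : Unit → ℕ) : ℝ :=
  if Admissible θ p ∧ Bad θ p (m ()) then 1 else 0

lemma bad_iff {n D B : ℕ} (θ : Pencil n D B) {p : ℕ} [Fact p.Prime] (m : ℕ) : Bad θ p m ↔
    (hsum (map (Int.castRingHom (ZMod p)) θ.G + C (m : ZMod p) * X 0 ^ (n + 1)) = 0 ∨
      (θ.Δ.map (Int.castRingHom (ZMod p))).eval (m : ZMod p) = 0) := by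
  unfold Bad
  rw [dvd_points, Int.cast_natCast]
  have h : ((p : ℤ) ∣ θ.Δ.eval (m : ℤ)) ↔ (θ.Δ.map (Int.castRingHom (ZMod p))).eval (m : ZMod p) = 0 := by
    rw [← ZMod.intCast_zmod_eq_zero_iff_dvd]
    have e : ((θ.Δ.eval (m : ℤ) : ℤ) : ZMod p) = (θ.Δ.map (Int.castRingHom (ZMod p))).eval (m : ZMod p) := by
      rw [Polynomial.eval_map]
      have := Polynomial.hom_eval₂ θ.Δ (RingHom.id ℤ) (Int.castRingHom (ZMod p)) (m : ℤ)
      rw [RingHom.comp_id] at this
      simp only [Int.coe_castRingHom, Int.cast_natCast] at this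
      rw [← this]
      rfl
    rw [e]
  rw [h]

open Classical in
lemma avg_gb {n D B : ℕ} (θ : Pencil n D B) {p : ℕ} (hp : p.Prime) :
    0 ≤ avg p (gb θ p) ∧ avg p (gb θ p) ≤ 1 / (n + 1 : ℝ) + D / p := by
  have : Fact p.Prime := ⟨hp⟩
  have hp0 : (0 : ℝ) < p := by exact_mod_cast hp.pos
  obtain ⟨F, hF⟩ : ∃ F : (Unit → ZMod p) → ℝ, F = fun v : Unit → ZMod p => if Admissible θ p ∧
      (hsum (map (Int.castRingHom (ZMod p)) θ.G + C (v ()) * X 0 ^ (n + 1)) = 0 ∨
      (θ.Δ.map (Int.castRingHom (ZMod p))).eval (v ()) = 0) then (1 : ℝ) else 0 := ⟨_, rfl⟩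
  have e : gb θ p = fun m : Unit → ℕ => F (fun l => (m l : ZMod p)) := by
    funext m
    unfold gb
    rw [hF]
    simp only [bad_iff]
  rw [e, avg_zmod F, hF]
  rw [Fintype.card_unit, pow_one]
  have e2 : ∑ v : Unit → ZMod p, (fun v : Unit → ZMod p => if Admissible θ p ∧
      (hsum (map (Int.castRingHom (ZMod p)) θ.G + C (v ()) * X 0 ^ (n + 1)) = 0 ∨
      (θ.Δ.map (Int.castRingHom (ZMod p))).eval (v ()) = 0) then (1 : ℝ) else 0) v =
      ∑ t : ZMod p, (if Admissible θ p ∧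
      (hsum (map (Int.castRingHom (ZMod p)) θ.G + C t * X 0 ^ (n + 1)) = 0 ∨
      (θ.Δ.map (Int.castRingHom (ZMod p))).eval t = 0) then (1 : ℝ) else 0) :=
    Fintype.sum_equiv (Equiv.funUnique Unit (ZMod p)) _ _ (fun v => rfl)
  rw [e2]
  refine ⟨div_nonneg (sum_nonneg fun t _ => by split_ifs <;> norm_num) hp0.le, ?_⟩
  by_cases hA : Admissible θ p
  · have h1 : ∑ t : ZMod p, (if Admissible θ p ∧
      (hsum (map (Int.castRingHom (ZMod p)) θ.G + C t * X 0 ^ (n + 1)) = 0 ∨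
      (θ.Δ.map (Int.castRingHom (ZMod p))).eval t = 0) then (1 : ℝ) else 0) ≤
      ((((univ : Finset (ZMod p)).filter fun t => hsum (map (Int.castRingHom (ZMod p)) θ.G + C t * X 0 ^ (n + 1)) = 0).card : ℕ) : ℝ) +
      ((((univ : Finset (ZMod p)).filter fun t => (θ.Δ.map (Int.castRingHom (ZMod p))).eval t = 0).card : ℕ) : ℝ) := by
      rw [card_filter, card_filter]
      push_cast
      rw [← sum_add_distrib]
      refine sum_le_sum fun t _ => ?_
      by_cases h2 : hsum (map (Int.castRingHom (ZMod p)) θ.G + C t * X 0 ^ (n + 1)) = 0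
      · rw [if_pos h2, if_pos ⟨hA, Or.inl h2⟩]
        split_ifs <;> norm_num
      · rw [if_neg h2]
        by_cases h3 : (θ.Δ.map (Int.castRingHom (ZMod p))).eval t = 0
        · rw [if_pos h3, if_pos ⟨hA, Or.inr h3⟩]
          norm_num
        · rw [if_neg h3, if_neg (fun h => h.2.elim h2 h3)]
          norm_num
    have h4 : ((univ : Finset (ZMod p)).filter fun t =>
        hsum (map (Int.castRingHom (ZMod p)) θ.G + C t * X 0 ^ (n + 1)) = 0).card ≤ (p - 1) / (n + 1) := by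
      refine le_trans (le_of_eq ?_) (card_members (map (Int.castRingHom (ZMod p)) θ.G)
        ((totalDegree_le_totalDegree_map θ).trans θ.deg) ?_)
      · congr!
      · obtain ⟨t, ht⟩ := hA.1
        exact ⟨(t : ZMod p), fun h => ht ((dvd_points θ.G t).2 h)⟩
    have h5 : ((univ : Finset (ZMod p)).filter fun t => (θ.Δ.map (Int.castRingHom (ZMod p))).eval t = 0).card ≤ D := by
      refine le_trans (card_le_card (t := (θ.Δ.map (Int.castRingHom (ZMod p))).roots.toFinset) fun t ht => ?_)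
        ((Multiset.toFinset_card_le _).trans ((Polynomial.card_roots' _).trans (Polynomial.natDegree_map_le.trans θ.degΔ)))
      rw [Multiset.mem_toFinset, Polynomial.mem_roots hA.2, Polynomial.IsRoot.def]
      exact (mem_filter.1 ht).2
    have h6 : (((p - 1) / (n + 1) : ℕ) : ℝ) ≤ p / (n + 1 : ℝ) := by
      refine (Nat.cast_div_le).trans ?_
      push_cast
      refine div_le_div_of_nonneg_right ?_ (by positivity)
      exact_mod_cast Nat.sub_le p 1
    rw [div_le_iff₀ hp0]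
    have h7 : (1 / (n + 1 : ℝ) + D / p) * p = p / (n + 1 : ℝ) + D := by
      field_simp
    rw [h7]
    have h8 : ((((univ : Finset (ZMod p)).filter fun t =>
        hsum (map (Int.castRingHom (ZMod p)) θ.G + C t * X 0 ^ (n + 1)) = 0).card : ℕ) : ℝ) ≤ (((p - 1) / (n + 1) : ℕ) : ℝ) := by
      exact_mod_cast h4
    have h9 : ((((univ : Finset (ZMod p)).filter fun t => (θ.Δ.map (Int.castRingHom (ZMod p))).eval t = 0).card : ℕ) : ℝ) ≤ (D : ℝ) := by
      exact_mod_cast h5
    linarith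
  · have h1 : ∑ t : ZMod p, (if Admissible θ p ∧
      (hsum (map (Int.castRingHom (ZMod p)) θ.G + C t * X 0 ^ (n + 1)) = 0 ∨
      (θ.Δ.map (Int.castRingHom (ZMod p))).eval t = 0) then (1 : ℝ) else 0) = 0 :=
      sum_eq_zero fun t _ => if_neg fun h => hA h.1
    rw [h1, zero_div]
    positivity
where
  totalDegree_le_totalDegree_map {n D B : ℕ} (θ : Pencil n D B) {p : ℕ} :
      (map (Int.castRingHom (ZMod p)) θ.G).totalDegree ≤ θ.G.totalDegree := by
    unfold totalDegree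
    exact Finset.sup_mono (support_map_subset _ _)

/-- the law -/
theorem law (n D : ℕ) {b : ℕ} (hb : 2 ≤ b) {δ : ℝ} (hδ : 0 < δ) (A B : ℕ) :
    ForAlmostAll Unit b A (fun (θ : Pencil n D B) x m => ∀ P ∈ θ.sets.S x, (∀ p ∈ P, Admissible θ p) →
      (number P (fun p => Bad θ p (m ())) : ℝ) ≤ P.card / (n + 1 : ℝ) + Real.sqrt (max 1 P.card) * (x : ℝ) ^ δ) := by
  classical
  obtain ⟨x₁, hx₁⟩ := eventually_le hδ (D + 1) (by positivity)
  have hU : ∀ x, 2 ≤ x → ((fun _ : ℕ => (univ : Finset Unit)) x).card ≤ x ^ 0 := by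
    intro x _
    simp
  have hper : ∀ θ : Pencil n D B, ∀ (_t : Unit) (p : ℕ) (m : Unit → ℕ), p.Prime → gb θ p m = gb θ p (fun i => m i % p) := by
    intro θ _ p m hp
    have : Fact p.Prime := ⟨hp⟩
    unfold gb
    simp only [bad_iff, ZMod.natCast_mod]
  have hbd : ∀ θ : Pencil n D B, ∀ (_t : Unit) (p : ℕ) (m : Unit → ℕ), p.Prime → |gb θ p m| ≤ 1 := by
    intro θ _ p m _
    unfold gb
    split_ifs
    · rw [abs_one]
    · rw [abs_zero]; norm_num
  refine forAlmostAll_of hb (show 0 < δ / 2 by positivity)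
    (fun θ : Pencil n D B => funData θ.sets (fun _ : ℕ => (univ : Finset Unit)) hU (fun _ p m => gb θ p m) (hper θ) (hbd θ)) (x₁ + 2) ?_
  intro θ x m hx h P hP hadm
  have hPr := θ.sets.prime x P hP
  have h1 := law_fun θ.sets (fun _ : ℕ => (univ : Finset Unit)) hU (fun _ p m => gb θ p m) (hper θ) (hbd θ) h P hP () (mem_univ _)
  have h2 : ∑ p ∈ P, avg p (fun n => (gb θ p n) ^ 2) ≤ P.card := by
    have : ∑ p ∈ P, avg p (fun n => (gb θ p n) ^ 2) ≤ ∑ p ∈ P, (1 : ℝ) := by
      apply sum_le_sum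
      intro p hp
      have h3 : avg p (fun n => (gb θ p n) ^ 2) ≤ avg (L := Unit) p (fun _ => 1) := by
        apply avg_mono
        intro m
        rw [sq_le_one_iff_abs_le_one]
        exact hbd θ () p m (hPr p hp).1
      rwa [avg_const (hPr p hp).1.one_lt.le] at h3
    simpa using this
  have h4 : Real.sqrt (max 1 (∑ p ∈ P, avg p (fun n => (gb θ p n) ^ 2))) ≤ Real.sqrt (max 1 P.card) :=
    Real.sqrt_le_sqrt (max_le_max le_rfl h2)
  have h5 : ∑ p ∈ P, avg p (gb θ p) ≤ P.card / (n + 1 : ℝ) + D * (1 + Real.log x) := by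
    refine (sum_le_sum fun p hp => (avg_gb θ (hPr p hp).1).2).trans ?_
    rw [sum_add_distrib, sum_const, nsmul_eq_mul]
    have h6 : ∑ p ∈ P, (D : ℝ) / p = D * ∑ p ∈ P, 1 / (p : ℝ) := by
      rw [mul_sum]
      exact sum_congr rfl fun p _ => by ring
    rw [h6]
    have h7 := mul_le_mul_of_nonneg_left (sum_inv_primes hPr) (Nat.cast_nonneg (α := ℝ) D)
    have h8 : (P.card : ℝ) * (1 / (n + 1 : ℝ)) = P.card / (n + 1 : ℝ) := by ring
    linarith
  have h6 : (number P (fun p => Bad θ p (m ())) : ℝ) = ∑ p ∈ P, gb θ p m := by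
    unfold number
    rw [card_filter]
    push_cast
    refine sum_congr rfl fun p hp => ?_
    unfold gb
    by_cases hbad : Bad θ p (m ())
    · rw [if_pos hbad, if_pos ⟨hadm p hp, hbad⟩]
    · rw [if_neg hbad, if_neg fun h => hbad h.2]
  obtain ⟨W, hW⟩ : ∃ W, W = Real.sqrt (max 1 (P.card : ℝ)) := ⟨_, rfl⟩
  have hW1 : 1 ≤ W := by rw [hW, Real.one_le_sqrt]; exact le_max_left _ _
  rw [← hW] at h4 ⊢
  have hxp : (0 : ℝ) ≤ (x : ℝ) ^ (δ / 2) := by positivity
  have hx2 : (1 : ℝ) ≤ x := by exact_mod_cast (by omega : 1 ≤ x)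
  have hlog : 0 ≤ Real.log x := Real.log_nonneg hx2
  have h7 := (abs_le.1 h1).2
  have h8 := mul_le_mul_of_nonneg_right h4 hxp
  have h9 := hx₁ x (by omega)
  rw [h6]
  have h10 : W * ((D + 1) * (x : ℝ) ^ (δ / 2) + (D + 1) * (1 + Real.log x)) ≤ W * (x : ℝ) ^ δ :=
    mul_le_mul_of_nonneg_left h9 (by linarith)
  have h11 : D * (1 + Real.log x) ≤ W * ((D + 1) * (1 + Real.log x)) := by
    have hD : (0 : ℝ) ≤ D := Nat.cast_nonneg D
    have h14 : 1 * (((D : ℝ) + 1) * (1 + Real.log x)) ≤ W * ((D + 1) * (1 + Real.log x)) :=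
      mul_le_mul_of_nonneg_right hW1 (by positivity)
    nlinarith
  have h12 : W * (x : ℝ) ^ (δ / 2) ≤ W * ((D + 1) * (x : ℝ) ^ (δ / 2)) := by
    apply mul_le_mul_of_nonneg_left _ (by linarith)
    have hD : (0 : ℝ) ≤ D := Nat.cast_nonneg D
    nlinarith
  have h13 : W * ((D + 1) * (x : ℝ) ^ (δ / 2) + (D + 1) * (1 + Real.log x)) =
    W * ((D + 1) * (x : ℝ) ^ (δ / 2)) + W * ((D + 1) * (1 + Real.log x)) := by ring
  linarith

end Pool.Agent.Q235.CY
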